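import Pool.Agent.V11212.Col.Vanish

/-!
# The number of homology degrees of Vietoris-Rips complexes in cubes is at most `2 ^ r`
-/

set_option autoImplicit false

namespace Pool.Agent.Results.MP_7cff07_gt.UniformBound

/-- The vertices of the cube `Q_n` (`true` stands for `1` and `false` for `-1`). -/
abbrev Word (n : ℕ) : Type := Fin n → Bool

/-- `s` is a simplex of `VR(S; r)`, or empty. -/
def IsFace {n : ℕ} (S : Finset (Word n)) (r : ℕ) (s : Finset (Word n)) : Prop :=
  s ⊆ S ∧ ∀ x ∈ s, ∀ y ∈ s, hammingDist x y ≤ r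

/-- Integral simplicial `q`-chains of `VR(S; r)`: families of coefficients, supported on the
simplices with `q + 1` vertices. -/
def IsChain {n : ℕ} (S : Finset (Word n)) (r q : ℕ) (c : Finset (Word n) → ℤ) : Prop :=
  ∀ s, c s ≠ 0 → IsFace S r s ∧ s.card = q + 1

/-- The augmented simplicial boundary, for the total order of the vertices given by `o`: the
coefficient at `t` is the sum over `v ∉ t` of `(-1) ^ i` times the coefficient at `t ∪ {v}`,
where `v` is the `i`-th vertex (counting from `0`) of `t ∪ {v}`. -/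
def bdry {n : ℕ} (o : Word n → ℕ) (c : Finset (Word n) → ℤ) (t : Finset (Word n)) : ℤ :=
  ∑ v, if v ∈ t then 0 else (-1) ^ (t.filter (fun u => o u < o v)).card * c (insert v t)

/-- The reduced integral homology of `VR(S; r)` in degree `q` is not zero. -/
def HomologyNonzero {n : ℕ} (o : Word n → ℕ) (S : Finset (Word n)) (r q : ℕ) : Prop :=
  ∃ z, IsChain S r q z ∧ bdry o z = 0 ∧ ∀ w, IsChain S r (q + 1) w → bdry o w ≠ z

/-- The number of degrees in which `VR(S; r)` has nonzero reduced homology. -/
noncomputable def numDegrees {n : ℕ} (o : Word n → ℕ) (S : Finset (Word n)) (r : ℕ) : ℕ :=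
  Set.ncard {q : ℕ | HomologyNonzero o S r q}

/-- the graph -/
def gr (n r : ℕ) : SimpleGraph (Word n) where
  Adj x y := x ≠ y ∧ hammingDist x y ≤ r
  symm := ⟨fun x y h => ⟨h.1.symm, by rw [hammingDist_comm]; exact h.2⟩⟩
  loopless := ⟨fun x h => h.1 rfl⟩

theorem face_iff {n : ℕ} (S : Finset (Word n)) (r : ℕ) (s : Finset (Word n)) :
    IsFace S r s ↔ s ∈ V11212.Col.cl (gr n r) S := by
  constructor
  · rintro ⟨hs, h⟩
    exact ⟨hs, fun x hx y hy hxy => ⟨hxy, h x hx y hy⟩⟩
  · rintro ⟨hs, h⟩
    refine ⟨hs, fun x hx y hy => ?_⟩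
    by_cases hxy : x = y
    · subst hxy; rw [hammingDist_self]; exact Nat.zero_le _
    · exact (h hx hy hxy).2

theorem skew_le {n : ℕ} (S : Finset (Word n)) (r t : ℕ) (K : V11212.Col.Skew (gr n r) S t) :
    t ≤ 2 ^ r := by
  refine V11212.Col.clique_skew_bound (ι := Fin n) K.v K.w (fun i j => ?_) (fun i => ?_)
    (fun i j hij => (K.adj i j hij).2)
  · rcases lt_trichotomy i j with h | h | h
    · exact (K.clique i j h).2
    · subst h
      have : V11212.Col.dd (K.v i) (K.v i) = 0 := hammingDist_self _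
      omega
    · have h1 := (K.clique j i h).2
      rw [hammingDist_comm] at h1
      exact h1
  · by_contra h
    have h2 : ¬ r + 1 ≤ hammingDist (K.v i) (K.w i) := h
    exact K.nadj i ⟨K.ne i, by omega⟩

/-- **Main result.** For every `n` and `r` and every set `S` of vertices of the cube `Q_n`, the
reduced integral homology of `VR(S; r)` vanishes in all degrees `q ≥ 2 ^ r`; so it is nonzero in
at most `2 ^ r` degrees. -/
theorem result (n r : ℕ) (S : Finset (Word n)) (o : Word n → ℕ) (ho : Function.Injective o) :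
    (∀ q, 2 ^ r ≤ q → ¬ HomologyNonzero o S r q) ∧ numDegrees o S r ≤ 2 ^ r := by
  classical
  have key : ∀ q, 2 ^ r ≤ q → ¬ HomologyNonzero o S r q := by
    rintro q hq ⟨z, hz, hbz, hne⟩
    obtain ⟨w, hw, hbw⟩ := V11212.Col.vanish (k := ℤ) ho (gr n r) S.card S rfl (2 ^ r)
      (fun t K => skew_le S r t K) (q + 1) (by omega) z
      (fun s hs => ⟨(face_iff S r s).1 (hz s hs).1, (hz s hs).2⟩) hbz
    exact hne w (fun s hs => ⟨(face_iff S r s).2 (hw s hs).1, (hw s hs).2⟩) hbw
  refine ⟨key, ?_⟩
  have hsub : {q : ℕ | HomologyNonzero o S r q} ⊆ ↑(Finset.range (2 ^ r)) := by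
    intro q hq
    rw [Finset.coe_range]
    by_contra h
    exact key q (by simpa using h) hq
  have := Set.ncard_le_ncard hsub (Finset.finite_toSet _)
  rw [Set.ncard_coe_finset, Finset.card_range] at this
  exact this

end Pool.Agent.Results.MP_7cff07_gt.UniformBound
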